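import Pool.Agent.Q100.EQ.Grp
import Pool.Agent.Q100.EQ.Equi

/-!
# McKay bijections with degrees congruent up to sign: the equivariant form is equivalent

Let `G` be normal in `E` with `E / G` cyclic of order prime to `p` and `P` a Sylow `p`-subgroup of `E`.
The groups `M` between `G` and `E` all have the bijections of the question if and only if there is such a
bijection for `G` that commutes with the action of `N_E(P)`.

The irreducible characters of `M` are counted by Clifford theory: if `d = |M : G|` and the stabiliser of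
`θ` has order `s` modulo `G`, then `d` times the number of characters of `M` over `θ` is `gcd(d, s)²` per
element of the orbit of `θ`, and their degree is `(d / gcd(d, s)) θ(1)`.  The system of equations for the
numbers of `θ` with given `s` and degree class that arises for the divisors `d` of `|E : G|` is shown to be
nonsingular.
-/

set_option autoImplicit false
set_option linter.unusedSectionVars false

namespace Pool.Agent.Results.MP_5ecade_al.EquivariantForCyclicQuotients

open Pool.Agent.Helper884.IC (IsIrrChar Irr mem_Irr)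
open Pool.Agent.Y63.AWC (irr_comp)
open Pool.Agent.Q100.CQ Pool.Agent.Q100.PX Pool.Agent.Q100.EQ

/-- `m ≡ ± n (mod p)` -/
def Cong (p m n : ℕ) : Prop := (m : ℤ) ≡ n [ZMOD p] ∨ (m : ℤ) ≡ -n [ZMOD p]

/-- `Irr_{p'}(G)`: the irreducible complex characters of `G` of degree prime to `p`. -/
abbrev IrrPrime (p : ℕ) (G : Type) [Group G] : Type :=
  {χ : G → ℂ // IsIrrChar χ ∧ ∃ n : ℕ, χ 1 = n ∧ ¬ p ∣ n}

/-- There is a bijection `χ ↦ χ*` from `Irr_{p'}(G)` onto `Irr_{p'}(H)` with `χ(1) ≡ ± χ*(1) (mod p)` for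
all `χ`. -/
def DegreeBijection (p : ℕ) (G H : Type) [Group G] [Group H] : Prop :=
  ∃ f : IrrPrime p G → IrrPrime p H, Function.Bijective f ∧
    ∀ (χ : IrrPrime p G) (m n : ℕ), χ.1 1 = m → (f χ).1 1 = n → Cong p m n

/-- The conjugate `θ^a : x ↦ θ(a x a⁻¹)` of a function `θ` on the normal subgroup `G` of `E`. -/
def conj {E : Type} [Group E] (G : Subgroup E) [hG : G.Normal] (a : E) (θ : G → ℂ) : G → ℂ :=
  fun x => θ ⟨a * x * a⁻¹, hG.conj_mem x x.2 a⟩

/-- There is a bijection `χ ↦ χ*` from `Irr_{p'}(G)` onto `Irr_{p'}(G ∩ N)` with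
`χ(1) ≡ ± χ*(1) (mod p)` for all `χ` that commutes with the conjugation by the elements of `N`. -/
def EquivariantBijection (p : ℕ) {E : Type} [Group E] (G N : Subgroup E) [G.Normal] : Prop :=
  ∃ f : IrrPrime p G → IrrPrime p (G.subgroupOf N), Function.Bijective f ∧
    (∀ (χ : IrrPrime p G) (m n : ℕ), χ.1 1 = m → (f χ).1 1 = n → Cong p m n) ∧
    ∀ (a : N) (χ χ' : IrrPrime p G), χ'.1 = conj G (a : E) χ.1 →
      (f χ').1 = conj (G.subgroupOf N) a (f χ).1

/-- The number of the irreducible characters `θ` of the normal subgroup `G` of `E` of degree `± c` modulo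
`p` whose stabiliser in `E` has the order `s |G|`. -/
noncomputable def numStab (p s c : ℕ) {E : Type} [Group E] (G : Subgroup E) [G.Normal] : ℕ :=
  Nat.card {θ : G → ℂ // IsIrrChar θ ∧ (∃ n : ℕ, θ 1 = n ∧ Cong p n c) ∧
    Nat.card {a : E // conj G a θ = θ} = s * Nat.card G}

section cong

variable {p : ℕ}

theorem cong_iff {m n : ℕ} : Cong p m n ↔ (m : ZMod p) = n ∨ (m : ZMod p) = -n := by
  unfold Cong
  rw [← ZMod.intCast_eq_intCast_iff, ← ZMod.intCast_eq_intCast_iff]
  push_cast
  rfl

variable [Fact p.Prime]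

theorem cong_sq {m n : ℕ} : Cong p m n ↔ (m : ZMod p) ^ 2 = (n : ZMod p) ^ 2 := by
  rw [cong_iff, sq_eq_sq_iff_eq_or_eq_neg]

theorem ne_zero {n : ℕ} : (n : ZMod p) ≠ 0 ↔ ¬ p ∣ n := by
  rw [Ne, ZMod.natCast_eq_zero_iff]

end cong

section bij

variable {p : ℕ} [hp : Fact p.Prime] {K H : Type} [Group K] [Group H]

/-- the degree -/
noncomputable def deg (χ : IrrPrime p K) : ℕ := Classical.choose χ.2.2

omit hp in
theorem deg_spec (χ : IrrPrime p K) : χ.1 1 = deg χ ∧ ¬ p ∣ deg χ := Classical.choose_spec χ.2.2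

omit hp in
theorem deg_eq (χ : IrrPrime p K) {n : ℕ} (h : χ.1 1 = n) : n = deg χ := by
  have := (deg_spec χ).1
  rw [h] at this
  exact_mod_cast this

/-- the class of the degree -/
noncomputable def cl (χ : IrrPrime p K) : ZMod p := (deg χ : ZMod p) ^ 2

theorem cl_ne (χ : IrrPrime p K) : cl χ ≠ 0 := pow_ne_zero 2 (ne_zero.mpr (deg_spec χ).2)

theorem cong_cl {χ : IrrPrime p K} {ψ : IrrPrime p H} :
    (∀ m n : ℕ, χ.1 1 = m → ψ.1 1 = n → Cong p m n) ↔ cl χ = cl ψ := by
  constructor
  · intro h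
    exact cong_sq.mp (h _ _ (deg_spec χ).1 (deg_spec ψ).1)
  · intro h m n hm hn
    rw [deg_eq _ hm, deg_eq _ hn]
    exact cong_sq.mpr h

theorem RR_not {n : ℕ} {a : (ZMod p)ˣ} (h : RR p a n) : ¬ p ∣ n := by
  rw [← ne_zero]
  intro h0
  unfold RR at h
  rw [h0, zero_pow two_ne_zero] at h
  exact a.ne_zero h.symm

/-- the characters in a class -/
noncomputable def clEquiv (a : (ZMod p)ˣ) (C : (K → ℂ) → Prop) :
    {χ : IrrPrime p K // cl χ = a ∧ C χ.1} ≃
      {χ : K → ℂ // IsIrrChar χ ∧ C χ ∧ ∃ n : ℕ, χ 1 = n ∧ RR p a n} where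
  toFun χ := ⟨χ.1.1, χ.1.2.1, χ.2.2, deg χ.1, (deg_spec χ.1).1, χ.2.1⟩
  invFun χ := ⟨⟨χ.1, χ.2.1, χ.2.2.2.imp fun _ h => ⟨h.1, RR_not h.2⟩⟩, by
    obtain ⟨n, h1, h2⟩ := χ.2.2.2
    have h3 := deg_eq (⟨χ.1, χ.2.1, χ.2.2.2.imp fun _ h => ⟨h.1, RR_not h.2⟩⟩ : IrrPrime p K) h1
    refine ⟨?_, χ.2.2.1⟩
    unfold cl
    rw [← h3]
    exact h2⟩
  left_inv _ := rfl
  right_inv _ := rfl

variable [Finite K] [Finite H]

instance : Finite (IrrPrime p K) := by
  have := Fintype.ofFinite K
  exact ((Pool.Agent.Helper884.IC.irr_finite (G := K)).subset fun χ h => h.1).to_subtype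

theorem cnt_eq [Fintype K] (a : (ZMod p)ˣ) :
    cnt (RR p a) K = Nat.card {χ : IrrPrime p K // cl χ = a} := by
  classical
  have h1 := Nat.card_congr (clEquiv (p := p) (K := K) a (fun _ => True))
  simp only [and_true, true_and] at h1
  rw [h1]
  unfold cnt
  refine (Nat.subtype_card _ fun χ => ?_).symm
  rw [Finset.mem_filter, mem_Irr]

/-- from the numbers to the bijection -/
theorem bij_iff [Fintype K] [Fintype H] :
    DegreeBijection p K H ↔ ∀ a : (ZMod p)ˣ, cnt (RR p a) K = cnt (RR p a) H := by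
  constructor
  · rintro ⟨f, hf, hd⟩ a
    rw [cnt_eq, cnt_eq]
    refine Nat.card_congr (Equiv.subtypeEquiv (Equiv.ofBijective f hf) fun χ => ?_)
    have := cong_cl.mp (hd χ)
    change _ ↔ cl (f χ) = a
    rw [this]
  · intro h
    obtain ⟨e, he⟩ := equiv_of_fibers (cl (p := p) (K := K)) (cl (p := p) (K := H)) (by
      intro k
      by_cases hk : k = 0
      · subst hk
        have h1 : IsEmpty {χ : IrrPrime p K // cl χ = 0} := ⟨fun χ => cl_ne χ.1 χ.2⟩
        have h2 : IsEmpty {χ : IrrPrime p H // cl χ = 0} := ⟨fun χ => cl_ne χ.1 χ.2⟩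
        rw [Nat.card_of_isEmpty, Nat.card_of_isEmpty]
      · have h1 := h (Units.mk0 k hk)
        rw [cnt_eq, cnt_eq] at h1
        exact h1)
    exact ⟨e, e.bijective, fun χ => cong_cl.mpr (he χ).symm⟩

omit [Finite K] [Finite H] in
theorem cnt_iso [Fintype K] [Fintype H] (e : K ≃* H) (R : ℕ → Prop) : cnt R K = cnt R H := by
  classical
  have h1 : ∀ (L : Type) [Group L] [Fintype L], cnt R L =
      Nat.card {χ : L → ℂ // IsIrrChar χ ∧ ∃ n : ℕ, χ 1 = n ∧ R n} := by
    intro L _ _
    unfold cnt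
    refine (Nat.subtype_card _ fun χ => ?_).symm
    rw [Finset.mem_filter, mem_Irr]
  rw [h1, h1]
  refine Nat.card_congr
    { toFun := fun χ => ⟨fun x => χ.1 (e.symm x), irr_comp e.symm χ.2.1, ?_⟩
      invFun := fun χ => ⟨fun x => χ.1 (e x), irr_comp e χ.2.1, ?_⟩
      left_inv := fun χ => Subtype.ext (by funext x; simp)
      right_inv := fun χ => Subtype.ext (by funext x; simp) }
  · simp only [map_one]
    exact χ.2.2
  · simp only [map_one]
    exact χ.2.2

end bij

section act

variable {p : ℕ} [hp : Fact p.Prime] {E A : Type} [Group E] [Finite E] [Group A] (G : Subgroup E)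
  [hG : G.Normal]

/-- the action on `Irr_{p'}(G)` -/
@[reducible] def act (φ : A →* E) : MulAction A (IrrPrime p G) where
  smul a χ := ⟨fun x => χ.1 (cjN G (φ a)⁻¹ x), irr_comp (cjN G (φ a)⁻¹) χ.2.1, by
    obtain ⟨n, hn, h⟩ := χ.2.2
    refine ⟨n, ?_, h⟩
    change χ.1 (cjN G (φ a)⁻¹ 1) = n
    rw [map_one]
    exact hn⟩
  one_smul χ := Subtype.ext (by
    funext x
    change χ.1 (cjN G (φ 1)⁻¹ x) = χ.1 x
    rw [map_one, inv_one, cjN_one])
  mul_smul a b χ := Subtype.ext (by
    funext x
    change χ.1 (cjN G (φ (a * b))⁻¹ x) = χ.1 (cjN G (φ b)⁻¹ (cjN G (φ a)⁻¹ x))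
    rw [map_mul, mul_inv_rev, cjN_mul])

variable {G}

lemma eq_of_rel (hc : IsCyclic (E ⧸ G)) {H M : Subgroup E} (hGH : G ≤ H) (hGM : G ≤ M)
    (h : G.relIndex H = G.relIndex M) : H = M := by
  have h1 := card_inf_rel hc hGH hGM
  rw [h, Nat.gcd_self, ← card_rel hGM] at h1
  have h2 : Nat.card H = Nat.card M := by rw [card_rel hGH, card_rel hGM, h]
  have h3 : H ⊓ M = M := Subgroup.eq_of_le_of_card_ge inf_le_right h1.ge
  have h4 : M ≤ H := by rw [← h3]; exact inf_le_left
  exact (Subgroup.eq_of_le_of_card_ge h4 h2.le).symm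

lemma mem_stab (φ : A →* E) (χ : IrrPrime p G) (a : A) :
    a ∈ @MulAction.stabilizer A _ _ (act G φ) χ ↔ φ a ∈ st G χ.1 := by
  rw [← inv_mem_iff (x := φ a), mem_st]
  constructor
  · intro h x
    exact congrFun (congrArg Subtype.val (h : (act G φ).smul a χ = χ)) x
  · intro h
    exact Subtype.ext (funext h)

lemma st_conj (hc : IsCyclic (E ⧸ G)) {θ : G → ℂ} (hθ : IsIrrChar θ) (e : E) :
    st G (fun x => θ (cjN G e x)) = st G θ := by
  ext y
  have h1 : y ∈ st G (fun x => θ (cjN G e x)) ↔ e * y * e⁻¹ ∈ st G θ := by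
    rw [mem_st, mem_st]
    constructor
    · intro h z
      have h2 := h (cjN G e⁻¹ z)
      rw [← cjN_mul, ← cjN_mul, ← cjN_mul, mul_inv_cancel, cjN_one] at h2
      exact h2
    · intro h x
      have h2 := h (cjN G e x)
      rw [← cjN_mul, inv_mul_cancel_right, cjN_mul] at h2
      exact h2
  have h3 : e * y * e⁻¹ * y⁻¹ ∈ G := by
    rw [← QuotientGroup.eq_one_iff]
    change (e : E ⧸ G) * (y : E ⧸ G) * (e : E ⧸ G)⁻¹ * (y : E ⧸ G)⁻¹ = 1
    rw [show ((e : E ⧸ G)) * (y : E ⧸ G) = (y : E ⧸ G) * (e : E ⧸ G) from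
      (@IsCyclic.commGroup _ _ hc).mul_comm _ _, mul_inv_cancel_right, mul_inv_cancel]
  have := Fintype.ofFinite G
  have h4 := le_st hθ.isClass h3
  rw [h1]
  constructor
  · intro h
    have h5 := mul_mem (inv_mem h4) h
    have h6 : (e * y * e⁻¹ * y⁻¹)⁻¹ * (e * y * e⁻¹) = y := by group
    rwa [h6] at h5
  · intro h
    have h5 := mul_mem h4 h
    rwa [inv_mul_cancel_right] at h5

/-- the class -/
noncomputable def cc (χ : IrrPrime p G) : ℕ × ZMod p := (sg G χ.1, cl χ)

lemma cc_act (hc : IsCyclic (E ⧸ G)) (φ : A →* E) (a : A) (χ : IrrPrime p G) :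
    cc ((act G φ).smul a χ) = cc χ := by
  unfold cc
  refine Prod.ext ?_ ?_
  · change sg G (fun x => χ.1 (cjN G (φ a)⁻¹ x)) = sg G χ.1
    unfold sg
    rw [st_conj hc χ.2.1]
  · refine (cong_cl (p := p)).mp fun m n hm hn => ?_
    have h1 : χ.1 (cjN G (φ a)⁻¹ 1) = m := hm
    rw [map_one, hn] at h1
    rw [cong_sq]
    have h2 : n = m := by exact_mod_cast h1
    rw [h2]

lemma mm_eq [Fintype G] (s : ℕ) (a : (ZMod p)ˣ) :
    mm G p s a = Nat.card {χ : IrrPrime p G // cc χ = (s, (a : ZMod p))} := by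
  classical
  have h1 := Nat.card_congr (clEquiv (p := p) (K := G) a (fun θ => sg G θ = s))
  have h2 : ∀ χ : IrrPrime p G, cc χ = (s, (a : ZMod p)) ↔ cl χ = a ∧ sg G χ.1 = s := by
    intro χ
    unfold cc
    rw [Prod.mk.injEq, and_comm]
  simp only [h2]
  rw [h1]
  unfold mm
  refine (Nat.subtype_card _ fun χ => ?_).symm
  rw [Finset.mem_filter, mem_Irr]

variable {L : Subgroup E}

lemma cyc' (hc : IsCyclic (E ⧸ G)) : IsCyclic (L ⧸ G.subgroupOf L) := cyc_sub hc L

/-- the equivariant bijection and the numbers -/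
theorem equi_iff (hc : IsCyclic (E ⧸ G)) (hGL : L ⊔ G = ⊤) [Fintype G] [Fintype (G.subgroupOf L)] :
    EquivariantBijection p G L ↔
      ∀ (s : ℕ) (a : (ZMod p)ˣ), mm G p s a = mm (G.subgroupOf L) p s a := by
  have hc' : IsCyclic (L ⧸ G.subgroupOf L) := cyc_sub hc L
  have hX : ∀ χ : IrrPrime p G, (G.subgroupOf L).relIndex ((st G χ.1).subgroupOf L) = sg G χ.1 :=
    fun χ => rel_local (le_st χ.2.1.isClass) hGL
  have hle : ∀ χ : IrrPrime p G, G.subgroupOf L ≤ (st G χ.1).subgroupOf L :=
    fun χ x hx => le_st χ.2.1.isClass hx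
  constructor
  · rintro ⟨f, hf, hd, he⟩ s a
    rw [mm_eq, mm_eq]
    refine Nat.card_congr (Equiv.subtypeEquiv (Equiv.ofBijective f hf) fun χ => ?_)
    have h1 : cl χ = cl (f χ) := cong_cl.mp (hd χ)
    have h2 : (st G χ.1).subgroupOf L = st (G.subgroupOf L) (f χ).1 := by
      ext a
      rw [Subgroup.mem_subgroupOf, mem_st, mem_st]
      constructor
      · intro h x
        have h3 := he a χ χ (funext fun x => (h x).symm)
        exact (congrFun h3 x).symm
      · intro h x
        let χ' : IrrPrime p G := ⟨fun x => χ.1 (cjN G (a : E) x), irr_comp (cjN G (a : E)) χ.2.1, by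
          obtain ⟨n, hn, h⟩ := χ.2.2
          refine ⟨n, ?_, h⟩
          change χ.1 (cjN G (a : E) 1) = n
          rw [map_one]
          exact hn⟩
        have h3 := he a χ χ' rfl
        have h4 : (f χ').1 = (f χ).1 := by
          rw [h3]
          funext z
          exact h z
        have h5 : χ' = χ := hf.1 (Subtype.ext h4)
        exact congrFun (congrArg Subtype.val h5) x
    have h3 : sg G χ.1 = sg (G.subgroupOf L) (f χ).1 := by
      rw [← hX χ, h2]
      rfl
    have h4 : cc χ = cc (f χ) := by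
      unfold cc
      rw [h1, h3]
    change _ ↔ cc (f χ) = _
    rw [h4]
  · intro h
    let iX : MulAction L (IrrPrime p G) := act G L.subtype
    let iY : MulAction L (IrrPrime p (G.subgroupOf L)) := act (G.subgroupOf L) (MonoidHom.id L)
    obtain ⟨e, he, hc2⟩ := exists_equivariant (A := L) (cc (p := p) (G := G))
      (cc (p := p) (G := G.subgroupOf L)) (fun a x => cc_act hc L.subtype a x)
      (fun a x => cc_act hc' (MonoidHom.id L) a x)
      (by
        intro χ ψ hcc
        have h1 : (st G χ.1).subgroupOf L = st (G.subgroupOf L) ψ.1 := by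
          refine eq_of_rel hc' (hle χ) (le_st ψ.2.1.isClass) ?_
          rw [hX χ]
          exact congrArg Prod.fst hcc
        ext a
        rw [mem_stab, mem_stab]
        exact SetLike.ext_iff.mp h1 a)
      (by
        rintro ⟨s, b⟩
        by_cases hb : b = 0
        · subst hb
          have h1 : IsEmpty {χ : IrrPrime p G // cc χ = (s, 0)} :=
            ⟨fun χ => cl_ne χ.1 (congrArg Prod.snd χ.2)⟩
          have h2 : IsEmpty {χ : IrrPrime p (G.subgroupOf L) // cc χ = (s, 0)} :=
            ⟨fun χ => cl_ne χ.1 (congrArg Prod.snd χ.2)⟩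
          rw [Nat.card_of_isEmpty, Nat.card_of_isEmpty]
        · have h1 := h s (Units.mk0 b hb)
          rw [mm_eq, mm_eq] at h1
          exact h1)
    refine ⟨e, e.bijective, fun χ => cong_cl.mpr (congrArg Prod.snd (hc2 χ)).symm,
      fun a χ χ' hχ => ?_⟩
    have h1 : χ' = a⁻¹ • χ := by
      refine Subtype.ext ?_
      rw [hχ]
      funext x
      change χ.1 (cjN G (a : E) x) = χ.1 (cjN G (L.subtype a⁻¹)⁻¹ x)
      rw [map_inv, inv_inv]
      rfl
    rw [h1, he]
    funext x
    change (e χ).1 (cjN (G.subgroupOf L) (a⁻¹)⁻¹ x) = (e χ).1 (cjN (G.subgroupOf L) a x)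
    rw [inv_inv]

/-- the numbers of the statement -/
lemma numStab_eq [Fintype G] {s c : ℕ} (a : (ZMod p)ˣ) (ha : (a : ZMod p) = (c : ZMod p) ^ 2) :
    numStab p s c G = mm G p s a := by
  classical
  unfold numStab mm
  refine Nat.subtype_card _ fun θ => ?_
  rw [Finset.mem_filter, mem_Irr]
  refine and_congr_right fun hθ => ?_
  rw [and_comm]
  refine and_congr ?_ ?_
  · refine exists_congr fun n => and_congr_right fun _ => ?_
    rw [cong_sq, ← ha]
    rfl
  · have h1 : {a : E // conj G a θ = θ} = st G θ := by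
      have h2 : ∀ a : E, conj G a θ = θ ↔ a ∈ st G θ := by
        intro a
        rw [mem_st]
        exact ⟨fun h x => congrFun h x, fun h => funext h⟩
      simp only [h2]
    have h3 : 0 < Nat.card G := Nat.card_pos
    rw [h1, card_rel (le_st hθ.isClass), mul_comm (Nat.card G)]
    change sg G θ = s ↔ sg G θ * Nat.card G = s * Nat.card G
    constructor
    · intro h
      rw [h]
    · intro h
      exact Nat.eq_of_mul_eq_mul_right h3 h

theorem num_iff [Fintype G] [Fintype (G.subgroupOf L)] :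
    (∀ s c : ℕ, ¬ p ∣ c → numStab p s c G = numStab p s c (G.subgroupOf L)) ↔
      ∀ (s : ℕ) (a : (ZMod p)ˣ), mm G p s a = mm (G.subgroupOf L) p s a := by
  constructor
  · intro h s a
    by_cases ha : ∃ c : ZMod p, (a : ZMod p) = c ^ 2
    · obtain ⟨c, hc⟩ := ha
      have h1 : ((c.val : ℕ) : ZMod p) = c := ZMod.natCast_zmod_val c
      have h2 : (a : ZMod p) = ((c.val : ℕ) : ZMod p) ^ 2 := by rw [h1]; exact hc
      have h3 : ¬ p ∣ c.val := by
        rw [← ne_zero, h1]
        rintro rfl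
        rw [zero_pow two_ne_zero] at hc
        exact a.ne_zero hc
      have h4 := h s c.val h3
      rwa [numStab_eq a h2, numStab_eq a h2] at h4
    · have h1 : ∀ {F : Type} [Group F] [Finite F] (K : Subgroup F) [K.Normal] [Fintype K],
          mm K p s a = 0 := by
        intro F _ _ K _ _
        classical
        unfold mm
        rw [Finset.card_eq_zero, Finset.filter_eq_empty_iff]
        rintro θ - ⟨-, n, -, h2⟩
        exact ha ⟨(n : ZMod p), h2.symm⟩
      rw [h1, h1]
  · intro h s c hc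
    have h1 : ((c : ZMod p)) ^ 2 ≠ 0 := pow_ne_zero 2 (ne_zero.mpr hc)
    rw [numStab_eq (Units.mk0 _ h1) rfl, numStab_eq (Units.mk0 _ h1) rfl]
    exact h s _

end act

section sylow

variable {p : ℕ} [hp : Fact p.Prime] {E : Type} [Group E] [Finite E] {G : Subgroup E}
  [hG : G.Normal]

lemma sylow_le (hpG : ¬ p ∣ G.index) (P : Sylow p E) : (P : Subgroup E) ≤ G := by
  have h1 : IsPGroup p ((P : Subgroup E).map (QuotientGroup.mk' G)) := P.2.map _
  obtain ⟨n, hn⟩ := IsPGroup.iff_card.mp h1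
  have h2 : Nat.card ((P : Subgroup E).map (QuotientGroup.mk' G)) ∣ G.index :=
    Subgroup.card_subgroup_dvd_card _
  have h3 : n = 0 := by
    by_contra h
    apply hpG
    refine dvd_trans ?_ h2
    rw [hn]
    exact dvd_pow_self p h
  rw [h3, pow_zero, Subgroup.card_eq_one, Subgroup.map_eq_bot_iff, QuotientGroup.ker_mk'] at hn
  exact hn

/-- the two ways to write `L ∩ M` -/
def swap (L M : Subgroup E) : L.subgroupOf M ≃* M.subgroupOf L where
  toFun x := ⟨⟨x.1.1, x.2⟩, x.1.2⟩
  invFun x := ⟨⟨x.1.1, x.2⟩, x.1.2⟩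
  left_inv _ := rfl
  right_inv _ := rfl
  map_mul' _ _ := rfl

lemma norm_iso {M : Subgroup E} (P : Sylow p E) (hPM : (P : Subgroup E) ≤ M) (Q : Sylow p M) :
    Nonempty (Subgroup.normalizer ((Q : Subgroup M) : Set M) ≃*
      M.subgroupOf (Subgroup.normalizer ((P : Subgroup E) : Set E))) := by
  obtain ⟨m, hm⟩ := MulAction.exists_smul_eq M Q (P.subtype hPM)
  have h1 : (Q : Subgroup M).map (MulAut.conj m).toMonoidHom = (P : Subgroup E).subgroupOf M :=
    congrArg (fun S : Sylow p M => (S : Subgroup M)) hm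
  have h2 := Subgroup.map_equiv_normalizer_eq (Q : Subgroup M) (MulAut.conj m)
  rw [h1, ← Subgroup.subgroupOf_normalizer_eq hPM] at h2
  exact ⟨((MulAut.conj m).subgroupMap _).trans ((MulEquiv.subgroupCongr h2).trans (swap _ _))⟩

/-- for a fixed pair -/
theorem tfae (hc : IsCyclic (E ⧸ G)) (hpG : ¬ p ∣ G.index) (P : Sylow p E) :
    List.TFAE [
      ∀ M : Subgroup E, G ≤ M → ∀ Q : Sylow p M,
        DegreeBijection p M (Subgroup.normalizer ((Q : Subgroup M) : Set M)),
      EquivariantBijection p G (Subgroup.normalizer ((P : Subgroup E) : Set E)),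
      ∀ s c : ℕ, ¬ p ∣ c → numStab p s c G =
        numStab p s c (G.subgroupOf (Subgroup.normalizer ((P : Subgroup E) : Set E)))] := by
  have : ∀ M : Subgroup E, Fintype M := fun M => Fintype.ofFinite M
  have : ∀ M : Subgroup (Subgroup.normalizer ((P : Subgroup E) : Set E)), Fintype M :=
    fun M => Fintype.ofFinite M
  have hPG := sylow_le hpG P
  have hGL : Subgroup.normalizer ((P : Subgroup E) : Set E) ⊔ G = ⊤ :=
    P.normalizer_sup_eq_top' hPG
  have hmain := main_iff (p := p) hc hpG hGL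
  tfae_have 2 ↔ 3 := by rw [equi_iff hc hGL, num_iff]
  tfae_have 1 ↔ 3 := by
    rw [num_iff, ← hmain]
    constructor
    · intro h M hGM
      obtain ⟨e⟩ := norm_iso P (hPG.trans hGM) (P.subtype (hPG.trans hGM))
      have := Fintype.ofFinite (Subgroup.normalizer
        (((P.subtype (hPG.trans hGM) : Sylow p M) : Subgroup M) : Set M))
      intro a
      rw [bij_iff.mp (h M hGM (P.subtype (hPG.trans hGM))) a, cnt_iso e]
    · intro h M hGM Q
      obtain ⟨e⟩ := norm_iso P (hPG.trans hGM) Q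
      have := Fintype.ofFinite (Subgroup.normalizer ((Q : Subgroup M) : Set M))
      rw [bij_iff]
      intro a
      rw [h M hGM a, cnt_iso e]
  tfae_finish

end sylow

/-- **Equivariant form.** Let `p` be a prime. (A) For a normal subgroup `G` of a finite group `E` with
`E / G` cyclic of order prime to `p` and a Sylow `p`-subgroup `P` of `E` the following are equivalent:
(1) all groups `M` with `G ≤ M ≤ E` have a bijection as in the question; (2) `G` has such a bijection that
commutes with the action of `N_E(P)`; (3) for all `s` and `c` prime to `p` the number of irreducible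
characters of `G` of degree `± c` modulo `p` whose stabiliser in `E` has order `s |G|` is the number of
irreducible characters of `N_G(P)` of degree `± c` modulo `p` whose stabiliser in `N_E(P)` has order
`s |N_G(P)|`. (B) All finite groups have a bijection as in the question if and only if (2) holds for all
such `E`, `G`, `P`. -/
theorem result {p : ℕ} [Fact p.Prime] :
    (∀ {E : Type} [Group E] [Finite E] (G : Subgroup E) [G.Normal] (P : Sylow p E),
      IsCyclic (E ⧸ G) → ¬ p ∣ G.index →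
      List.TFAE [
        ∀ M : Subgroup E, G ≤ M → ∀ Q : Sylow p M,
          DegreeBijection p M (Subgroup.normalizer ((Q : Subgroup M) : Set M)),
        EquivariantBijection p G (Subgroup.normalizer ((P : Subgroup E) : Set E)),
        ∀ s c : ℕ, ¬ p ∣ c → numStab p s c G =
          numStab p s c (G.subgroupOf (Subgroup.normalizer ((P : Subgroup E) : Set E)))]) ∧
    ((∀ (H : Type) [Group H] [Finite H] (Q : Sylow p H),
        DegreeBijection p H (Subgroup.normalizer ((Q : Subgroup H) : Set H))) ↔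
      ∀ (E : Type) [Group E] [Finite E] (G : Subgroup E) [G.Normal] (P : Sylow p E),
        IsCyclic (E ⧸ G) → ¬ p ∣ G.index →
          EquivariantBijection p G (Subgroup.normalizer ((P : Subgroup E) : Set E))) := by
  refine ⟨fun G _ P hc hpG => tfae hc hpG P, ?_⟩
  constructor
  · intro h E _ _ G _ P hc hpG
    have h1 := (tfae hc hpG P).out 0 1
    refine h1.mp ?_
    intro M _ Q
    exact h M Q
  · intro h H _ _ Q
    have := Fintype.ofFinite H
    have := Fintype.ofFinite (Subgroup.normalizer ((Q : Subgroup H) : Set H))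
    have := Fintype.ofFinite (⊤ : Subgroup H)
    have := Fintype.ofFinite
      ((⊤ : Subgroup H).subgroupOf (Subgroup.normalizer ((Q : Subgroup H) : Set H)))
    have hi : (⊤ : Subgroup H).index = 1 := Subgroup.index_top
    have hsub : Subsingleton (H ⧸ (⊤ : Subgroup H)) := by
      have h1 : Nat.card (H ⧸ (⊤ : Subgroup H)) = 1 := hi
      exact (Nat.card_eq_one_iff_unique.mp h1).1
    obtain ⟨f, hf, hd, -⟩ := h H ⊤ Q isCyclic_of_subsingleton (by
      rw [hi]
      exact (Fact.out : p.Prime).one_lt.not_ge ∘ Nat.le_of_dvd one_pos)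
    have h1 : DegreeBijection p (⊤ : Subgroup H)
      ((⊤ : Subgroup H).subgroupOf (Subgroup.normalizer ((Q : Subgroup H) : Set H))) := ⟨f, hf, hd⟩
    rw [bij_iff] at h1 ⊢
    intro a
    have e1 : (⊤ : Subgroup H) ≃* H := Subgroup.topEquiv
    have e2 : ((⊤ : Subgroup H).subgroupOf (Subgroup.normalizer ((Q : Subgroup H) : Set H))) ≃*
        Subgroup.normalizer ((Q : Subgroup H) : Set H) :=
      (MulEquiv.subgroupCongr (Subgroup.top_subgroupOf _)).trans Subgroup.topEquiv
    rw [← cnt_iso e1, ← cnt_iso e2]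
    exact h1 a

end Pool.Agent.Results.MP_5ecade_al.EquivariantForCyclicQuotients
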