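import Pool.Agent.Q259.OP.Frob
import Pool.Agent.Q90.WR.Lab

/-!
# McKay bijections with degrees congruent up to sign: the parity of ONE number decides

`Wr G` is the wreath product of `G` with a group of order two, `WrN j G` the `j`-fold iterated one.
Let `p ≡ 3 (mod 4)` and `n_c(G)` the number of the irreducible characters of degree `± c` modulo `p`.
For even `m` prime to `p` there is a Frobenius group `H` of order `m Q` prime to `p` all of whose
irreducible characters have the degrees `1` (`m` of them) or `m` (an odd number). Then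
`n_c(G × H) ≡ n_{c/m}(G) (mod 2)`, and `m` can have any residue modulo `p` other than `0`. So the parity
of `n_c` for the groups `WrN j G × H` gives the parities of all `n_d` for the groups `WrN j G`, and
these decide.
-/

set_option autoImplicit false

open scoped Classical

noncomputable section

namespace Pool.Agent.Results.MP_5ecade_al.OneParityDecides

open Pool.Agent.Helper884.IC (IsIrrChar)
open Pool.Agent.Q90.WR
open Pool.Agent.Q99.RC (cd cd_prod cd_iso nd sylow_prod)
open Pool.Agent.Q259.OP (exists_even)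

/-- `m ≡ ± n (mod p)` -/
def Cong (p m n : ℕ) : Prop := (m : ℤ) ≡ n [ZMOD p] ∨ (m : ℤ) ≡ -n [ZMOD p]

/-- There is a bijection `χ ↦ χ*` from `Irr_{p'}(G)` onto `Irr_{p'}(H)` with `χ(1) ≡ ± χ*(1) (mod p)` for
all `χ`. -/
def DegreeBijection (p : ℕ) (G H : Type) [Group G] [Group H] : Prop :=
  ∃ f : IrrPrime p G ≃ IrrPrime p H, ∀ (χ : IrrPrime p G) (m n : ℕ), (m : ℂ) = (χ : G → ℂ) 1 →
    (n : ℂ) = (f χ : H → ℂ) 1 → Cong p m n

/-- The number of the irreducible characters of `G` of degree `± c` modulo `p`. -/
def num (p c : ℕ) (G : Type) [Group G] : ℕ :=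
  Nat.card {χ : G → ℂ // IsIrrChar χ ∧ ∃ n : ℕ, (n : ℂ) = χ 1 ∧ Cong p n c}

/-- `H` has order prime to `p` and only irreducible characters of the degrees `1` and `m`, where
`m > 1` is prime to `p`. -/
def TwoDegrees (p m : ℕ) (H : Type) [Group H] : Prop :=
  ¬ p ∣ Nat.card H ∧ 1 < m ∧ ¬ p ∣ m ∧ ∀ χ : H → ℂ, IsIrrChar χ → χ 1 = 1 ∨ χ 1 = m

variable {p : ℕ} [hp : Fact p.Prime]

omit hp in
theorem numClose_cd (c : ℕ) (G : Type) [Group G] : numClose p c G = cd (fun n => Close p n c) G := by
  unfold numClose cd
  refine Nat.card_congr (Equiv.subtypeEquivRight fun χ => and_congr_right fun _ => ?_)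
  exact exists_congr fun n => and_congr_left fun _ => eq_comm

theorem ne_zero' {n : ℕ} : (n : ZMod p) ≠ 0 ↔ ¬ p ∣ n := by
  rw [Ne, ZMod.natCast_eq_zero_iff]

theorem close_shift {m c d : ℕ} (hm : (m : ZMod p) ≠ 0) (h : (d : ZMod p) * m = c) (n : ℕ) :
    Close p (n * m) c ↔ Close p n d := by
  unfold Close
  refine exists_congr fun a => ?_
  rw [← h]
  push_cast
  rw [mul_pow, mul_pow]
  exact mul_left_inj' (pow_ne_zero _ hm)

theorem numClose_prod {m c d : ℕ} {H : Type} [Group H] [Finite H] (hH : TwoDegrees p m H)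
    (h : (d : ZMod p) * m = c) (K : Type) [Group K] [Finite K] :
    numClose p c (K × H) = numClose p c K * nd 1 H + numClose p d K * nd m H := by
  obtain ⟨-, h1, h2, h3⟩ := hH
  rw [numClose_cd, numClose_cd, numClose_cd, cd_prod _ h1.ne' h3]
  simp only [close_shift (ne_zero'.2 h2) h]

omit hp in
theorem numClose_iso {c : ℕ} {G H : Type} [Group G] [Group H] (e : G ≃* H) :
    numClose p c G = numClose p c H := by
  rw [numClose_cd, numClose_cd]
  exact cd_iso e _

/-- the number for the normalizer of any Sylow subgroup of `K × H` -/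
theorem numClose_norm {m c d : ℕ} {H : Type} [Group H] [Finite H] (hH : TwoDegrees p m H)
    (h : (d : ZMod p) * m = c) {K : Type} [Group K] [Finite K] (P : Sylow p K)
    (S : Sylow p (K × H)) :
    numClose p c (Subgroup.normalizer ((S : Subgroup (K × H)) : Set (K × H))) =
      numClose p c (Subgroup.normalizer ((P : Subgroup K) : Set K)) * nd 1 H +
      numClose p d (Subgroup.normalizer ((P : Subgroup K) : Set K)) * nd m H := by
  obtain ⟨T, ⟨e⟩⟩ := sylow_prod P hH.1
  obtain ⟨e'⟩ := norm_equiv S T
  rw [numClose_iso (e'.trans e), numClose_prod hH h]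

theorem exists_quot {c m : ℕ} (hm : ¬ p ∣ m) (hc : ¬ p ∣ c) :
    ∃ d : ℕ, ¬ p ∣ d ∧ (d : ZMod p) * m = c := by
  rw [← ne_zero'] at hm hc
  obtain ⟨d, hd, he⟩ := exists_nat (div_ne_zero hc hm)
  exact ⟨d, hd, by rw [he, div_mul_cancel₀ _ hm]⟩

theorem exists_even_quot (hp2 : p ≠ 2) {c d : ℕ} (hc : ¬ p ∣ c) (hd : ¬ p ∣ d) :
    ∃ m : ℕ, Even m ∧ 0 < m ∧ ¬ p ∣ m ∧ (d : ZMod p) * m = c := by
  have hodd : Odd p := hp.out.odd_of_ne_two hp2
  obtain ⟨r, hr, he⟩ := exists_quot hd hc
  have hr0 : 0 < r := Nat.pos_of_ne_zero fun h => hr (h ▸ dvd_zero p)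
  rcases Nat.even_or_odd r with h | h
  · exact ⟨r, h, hr0, hr, by rw [mul_comm]; exact he⟩
  · refine ⟨r + p, h.add_odd hodd, by omega, ?_, ?_⟩
    · rwa [Nat.dvd_add_self_right]
    · push_cast
      rw [ZMod.natCast_self, add_zero, mul_comm]
      exact he

/-- the criterion for one group -/
theorem one (hp2 : p ≠ 2) {c : ℕ} (hc : ¬ p ∣ c) (G : Type) [Group G] [Finite G] (P : Sylow p G) :
    CloseBijection p G (Subgroup.normalizer ((P : Subgroup G) : Set G)) ↔
      ∀ (j m : ℕ) (H : Type) [Group H] [Finite H], 2 ^ j ≤ Nat.card G → TwoDegrees p m H →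
        ∀ Q : Sylow p (WrN j G × H), numClose p c (WrN j G × H) ≡
          numClose p c (Subgroup.normalizer ((Q : Subgroup (WrN j G × H)) : Set (WrN j G × H)))
          [MOD 2] := by
  constructor
  · intro h j m H _ _ _ hH S
    obtain ⟨Q⟩ : Nonempty (Sylow p (WrN j G)) := inferInstance
    obtain ⟨d, hd, he⟩ := exists_quot hH.2.2.1 hc
    rw [close_bij_iff] at h
    have h1 := lab_eq_levels hp2 j G P h Q
    have h2 : ∀ d : ℕ, ¬ p ∣ d → numClose p d (WrN j G) =
        numClose p d (Subgroup.normalizer ((Q : Subgroup (WrN j G)) : Set (WrN j G))) := by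
      intro d hd
      rw [numClose_eq hd, numClose_eq hd, h1 _ (pow_ne_zero _ (ne_zero'.2 hd))]
    rw [numClose_prod hH he, numClose_norm hH he Q S, h2 c hc, h2 d hd]
  · intro h
    rw [close_one hp2 G P]
    intro j d hj hd Q
    obtain ⟨m, hm, hm0, hpm, he⟩ := exists_even_quot hp2 hc hd
    obtain ⟨H, _, _, hH, hdeg, ⟨a, ha⟩, ⟨b, hb⟩⟩ := exists_even p hm hm0 hp.out hpm
    have hm1 : 1 < m := by
      obtain ⟨r, rfl⟩ := hm
      omega
    have hT : TwoDegrees p m H := ⟨hH, hm1, hpm, hdeg⟩
    obtain ⟨S⟩ : Nonempty (Sylow p (WrN j G × H)) := inferInstance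
    have h1 := h j m H hj hT S
    rw [numClose_prod hT he, numClose_norm hT he Q S, ha, hb] at h1
    have h2 : ∀ x y : ℕ, x * (a + a) + y * (2 * b + 1) ≡ y [MOD 2] := by
      intro x y
      have : x * (a + a) + y * (2 * b + 1) = y + 2 * (x * a + y * b) := by ring
      rw [this]
      simp [Nat.ModEq]
    exact ((h2 _ _).symm.trans h1).trans (h2 _ _)

theorem all (hp2 : p ≠ 2) {c : ℕ} (hc : ¬ p ∣ c) :
    (∀ (G : Type) [Group G] [Finite G] (P : Sylow p G),
      CloseBijection p G (Subgroup.normalizer ((P : Subgroup G) : Set G))) ↔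
    (∀ (G : Type) [Group G] [Finite G] (P : Sylow p G), numClose p c G ≡
      numClose p c (Subgroup.normalizer ((P : Subgroup G) : Set G)) [MOD 2]) := by
  constructor
  · intro h G _ _ P
    exact (close_all hp2).1 h G P c hc
  · intro h G _ _ P
    rw [one hp2 hc G P]
    intro j m H _ _ _ _ Q
    exact h (WrN j G × H) Q

theorem bij_three (h3 : p % 4 = 3) (G H : Type) [Group G] [Group H] :
    CloseBijection p G H ↔ DegreeBijection p G H := by
  refine exists_congr fun f => ?_
  refine forall_congr' fun χ => forall_congr' fun m => forall_congr' fun n =>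
    forall_congr' fun _ => forall_congr' fun hn => ?_
  obtain ⟨-, n', hn', hpn⟩ := (f χ).2
  have : n = n' := by exact_mod_cast hn.trans hn'.symm
  subst this
  exact close_three h3 hpn

theorem num_three (h3 : p % 4 = 3) {c : ℕ} (hc : ¬ p ∣ c) (G : Type) [Group G] :
    numClose p c G = num p c G := by
  unfold numClose num
  refine Nat.card_congr (Equiv.subtypeEquivRight fun χ => and_congr_right fun _ => ?_)
  exact exists_congr fun n => and_congr_right fun _ => close_three h3 hc

/-- Let `p` be an odd prime and `c` not divisible by `p`. `Close p m n` says that `m` and `n` agree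
modulo `p` up to a factor of 2-power order, `CloseBijection p G N` that there is a bijection
`Irr_{p'}(G) → Irr_{p'}(N)` with `χ(1)` close to `χ*(1)` for all `χ`, and `numClose p c G` is the number
of the irreducible characters of `G` of degree close to `c`. `P` runs through the Sylow `p`-subgroups.
(1) `G` and `N_G(P)` have such a bijection if and only if for all `j` with `2^j ≤ |G|`, all `m` and all
finite `H` with `TwoDegrees p m H` the numbers of irreducible characters of degree close to `c` of
`WrN j G × H` and of the normalizer of a Sylow `p`-subgroup of it have the same parity.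
(2) Such bijections exist for all `G` and `P` if and only if for all `G`, `P` the numbers of
irreducible characters of degree close to `c` of `G` and of `N_G(P)` have the same parity.
(3) If `p ≡ 3 (mod 4)`, then `CloseBijection` is `DegreeBijection` (degrees congruent up to sign) and
`numClose` is `num` (degree `± c` modulo `p`). -/
theorem result (p : ℕ) [Fact p.Prime] (hp2 : p ≠ 2) (c : ℕ) (hc : ¬ p ∣ c) :
    (∀ (G : Type) [Group G] [Finite G] (P : Sylow p G),
      CloseBijection p G (Subgroup.normalizer ((P : Subgroup G) : Set G)) ↔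
        ∀ (j m : ℕ) (H : Type) [Group H] [Finite H], 2 ^ j ≤ Nat.card G → TwoDegrees p m H →
          ∀ Q : Sylow p (WrN j G × H), numClose p c (WrN j G × H) ≡
            numClose p c (Subgroup.normalizer ((Q : Subgroup (WrN j G × H)) : Set (WrN j G × H)))
            [MOD 2]) ∧
    ((∀ (G : Type) [Group G] [Finite G] (P : Sylow p G),
      CloseBijection p G (Subgroup.normalizer ((P : Subgroup G) : Set G))) ↔
    (∀ (G : Type) [Group G] [Finite G] (P : Sylow p G), numClose p c G ≡
      numClose p c (Subgroup.normalizer ((P : Subgroup G) : Set G)) [MOD 2])) ∧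
    (p % 4 = 3 → ∀ (G N : Type) [Group G] [Group N],
      (CloseBijection p G N ↔ DegreeBijection p G N) ∧ numClose p c G = num p c G) :=
  ⟨fun G _ _ P => one hp2 hc G P, all hp2 hc, fun h3 G N _ _ => ⟨bij_three h3 G N, num_three h3 hc G⟩⟩

end Pool.Agent.Results.MP_5ecade_al.OneParityDecides
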