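import Pool.Agent.Q99.RC.Prod
import Mathlib.NumberTheory.LSeries.PrimesInAP

/-!
# McKay bijections with degrees congruent up to sign: one residue class, approximately

For a `p'`-group `H` and a Sylow `p`-subgroup `P` of `G` the group `P × 1` is a Sylow `p`-subgroup of
`G × H` with normalizer `N_G(P) × H`.  If all irreducible characters of `H` have the degree `1` (`a` of
them) or `q` (`b` of them), then the number of irreducible characters of `G × H` with degree `± c` modulo
`p` is `a n(c) + b n(c / q)`, where `n(c)` is this number for `G`.  The groups `H` of order `q Q`,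
`Q ≡ 1 (mod q)` prime, that are not abelian, have this property, with `b / a → ∞` for `Q → ∞`, and by
Dirichlet's theorem `q` can have any residue modulo `p` other than `0`.
-/

set_option autoImplicit false

namespace Pool.Agent.Results.MP_5ecade_al.OneResidueClass

open Pool.Agent.Helper884.IC (IsIrrChar)
open Pool.Agent.Q99.RC

/-- `m ≡ ± n (mod p)` -/
def Cong (p m n : ℕ) : Prop := (m : ℤ) ≡ n [ZMOD p] ∨ (m : ℤ) ≡ -n [ZMOD p]

/-- `Irr_{p'}(G)`: the irreducible complex characters of `G` of degree prime to `p`. -/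
abbrev IrrPrime (p : ℕ) (G : Type) [Group G] : Type :=
  {χ : G → ℂ // IsIrrChar χ ∧ ∃ n : ℕ, χ 1 = n ∧ ¬ p ∣ n}

/-- There is a bijection `χ ↦ χ*` from `Irr_{p'}(G)` onto `Irr_{p'}(H)` with `χ(1) ≡ ± χ*(1) (mod p)` for
all `χ`. -/
def DegreeBijection (p : ℕ) (G H : Type) [Group G] [Group H] : Prop :=
  ∃ f : IrrPrime p G → IrrPrime p H, Function.Bijective f ∧
    ∀ (χ : IrrPrime p G) (m n : ℕ), χ.1 1 = m → (f χ).1 1 = n → Cong p m n

/-- The number of the irreducible characters of `G` of degree `± c` modulo `p`. -/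
noncomputable def num (p c : ℕ) (G : Type) [Group G] : ℕ :=
  Nat.card {χ : G → ℂ // IsIrrChar χ ∧ ∃ n : ℕ, χ 1 = n ∧ Cong p n c}

/-- `|Irr_{p'}(G)|` -/
noncomputable def total (p : ℕ) (G : Type) [Group G] : ℕ := Nat.card (IrrPrime p G)

/-- The class `X` of finite groups is closed under direct products with the groups of order `q Q` for
different primes `q`, `Q`, both different from `p`. -/
def ClosedUnderTests (p : ℕ) (X : ∀ (G : Type) [Group G], Prop) : Prop :=
  ∀ (G H : Type) [Group G] [Group H] [Finite G] [Finite H] (q Q : ℕ), X G → q.Prime → Q.Prime →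
    q ≠ p → Q ≠ p → q ≠ Q → Nat.card H = q * Q → X (G × H)

/-- `A` holds for all Sylow `p`-subgroups `P` of the finite groups `G` in `X`, and `N = N_G(P)`. -/
def All (p : ℕ) (X : ∀ (G : Type) [Group G], Prop)
    (A : ∀ (G N : Type) [Group G] [Group N], Prop) : Prop :=
  ∀ (G : Type) [Group G] [Finite G] (P : Sylow p G), X G →
    A G (Subgroup.normalizer ((P : Subgroup G) : Set G))

section cong

variable {p : ℕ}

theorem cong_iff {m n : ℕ} : Cong p m n ↔ (m : ZMod p) = n ∨ (m : ZMod p) = -n := by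
  unfold Cong
  rw [← ZMod.intCast_eq_intCast_iff, ← ZMod.intCast_eq_intCast_iff]
  push_cast
  rfl

variable [Fact p.Prime]

theorem cong_sq {m n : ℕ} : Cong p m n ↔ (m : ZMod p) ^ 2 = (n : ZMod p) ^ 2 := by
  rw [cong_iff, sq_eq_sq_iff_eq_or_eq_neg]

theorem ne_zero {n : ℕ} : (n : ZMod p) ≠ 0 ↔ ¬ p ∣ n := by
  rw [Ne, ZMod.natCast_eq_zero_iff]

theorem cong_dvd {m n : ℕ} (h : Cong p m n) (hn : ¬ p ∣ n) : ¬ p ∣ m := by
  rw [cong_sq] at h
  rw [← ne_zero] at hn ⊢
  intro h0
  rw [h0, zero_pow two_ne_zero] at h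
  exact pow_ne_zero 2 hn h.symm

theorem cong_shift {q c d : ℕ} (hq : (q : ZMod p) ≠ 0) (h : (d : ZMod p) * q = c) (n : ℕ) :
    Cong p (n * q) c ↔ Cong p n d := by
  rw [cong_sq, cong_sq, ← h]
  push_cast
  rw [mul_pow, mul_pow]
  exact mul_left_inj' (pow_ne_zero 2 hq)

end cong

section bij

variable {p : ℕ} [hp : Fact p.Prime] {G H : Type} [Group G] [Group H] [Finite G] [Finite H]

instance : Finite (IrrPrime p G) :=
  inferInstanceAs (Finite {χ : G → ℂ // IsIrrChar χ ∧ ∃ n : ℕ, χ 1 = n ∧ ¬ p ∣ n})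

/-- the degree -/
noncomputable def deg (χ : IrrPrime p G) : ℕ := Classical.choose χ.2.2

omit hp [Finite G] in
theorem deg_spec (χ : IrrPrime p G) : χ.1 1 = deg χ ∧ ¬ p ∣ deg χ := Classical.choose_spec χ.2.2

omit hp [Finite G] in
theorem deg_eq (χ : IrrPrime p G) {n : ℕ} (h : χ.1 1 = n) : n = deg χ := by
  have := (deg_spec χ).1
  rw [h] at this
  exact_mod_cast this

omit [Finite G] in
theorem num_eq {d : ℕ} (hd : ¬ p ∣ d) :
    num p d G = Nat.card {χ : IrrPrime p G // (deg χ : ZMod p) ^ 2 = (d : ZMod p) ^ 2} := by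
  refine Nat.card_congr
    { toFun := fun χ => ⟨⟨χ.1, χ.2.1, ?_⟩, ?_⟩
      invFun := fun χ => ⟨χ.1.1, χ.1.2.1, deg χ.1, (deg_spec χ.1).1, cong_sq.2 χ.2⟩
      left_inv := fun χ => rfl
      right_inv := fun χ => rfl }
  · obtain ⟨n, hn, h⟩ := χ.2.2
    exact ⟨n, hn, cong_dvd h hd⟩
  · obtain ⟨n, hn, h⟩ := χ.2.2
    have h1 := deg_eq (⟨χ.1, χ.2.1, n, hn, cong_dvd h hd⟩ : IrrPrime p G) hn
    have h2 := cong_sq.1 h
    rw [h1] at h2
    exact h2

theorem exists_inj (h : ∀ d : ℕ, ¬ p ∣ d → num p d G ≤ num p d H) :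
    ∃ f : IrrPrime p G → IrrPrime p H, Function.Injective f ∧
      ∀ (χ : IrrPrime p G) (m n : ℕ), χ.1 1 = m → (f χ).1 1 = n → Cong p m n := by
  have e : ∀ l : ZMod p, ∃ f : {χ : IrrPrime p G // (deg χ : ZMod p) ^ 2 = l} →
      {χ : IrrPrime p H // (deg χ : ZMod p) ^ 2 = l}, Function.Injective f := by
    intro l
    rcases isEmpty_or_nonempty {χ : IrrPrime p G // (deg χ : ZMod p) ^ 2 = l} with h0 | ⟨⟨χ, rfl⟩⟩
    · exact ⟨fun χ => h0.elim χ, fun χ => h0.elim χ⟩
    · have h1 := h (deg χ) (deg_spec χ).2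
      rw [num_eq (deg_spec χ).2, num_eq (deg_spec χ).2] at h1
      have := Fintype.ofFinite {ψ : IrrPrime p G // (deg ψ : ZMod p) ^ 2 = (deg χ : ZMod p) ^ 2}
      have := Fintype.ofFinite {ψ : IrrPrime p H // (deg ψ : ZMod p) ^ 2 = (deg χ : ZMod p) ^ 2}
      rw [Nat.card_eq_fintype_card, Nat.card_eq_fintype_card] at h1
      obtain ⟨g⟩ := Function.Embedding.nonempty_of_card_le h1
      exact ⟨g, g.injective⟩
  choose e he using e
  have key : ∀ (l l' : ZMod p) (χ ψ : IrrPrime p G) (h : (deg χ : ZMod p) ^ 2 = l)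
      (h' : (deg ψ : ZMod p) ^ 2 = l'), (e l ⟨χ, h⟩).1 = (e l' ⟨ψ, h'⟩).1 → χ = ψ := by
    intro l l' χ ψ h h' heq
    have h1 : l = l' := by
      rw [← (e l ⟨χ, h⟩).2, ← (e l' ⟨ψ, h'⟩).2, heq]
    subst h1
    exact congrArg Subtype.val (he l (Subtype.ext heq))
  refine ⟨fun χ => (e _ ⟨χ, rfl⟩).1, fun χ ψ h => key _ _ χ ψ rfl rfl h, fun χ m n hm hn => ?_⟩
  rw [cong_sq, deg_eq _ hm, deg_eq _ hn]
  exact (e _ ⟨χ, rfl⟩).2.symm

theorem bij_of_le (h : ∀ d : ℕ, ¬ p ∣ d → num p d G ≤ num p d H) (ht : total p G = total p H) :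
    DegreeBijection p G H := by
  obtain ⟨f, hf, hd⟩ := exists_inj h
  exact ⟨f, hf.bijective_of_nat_card_le ht.ge, hd⟩

theorem bij_of_ge (h : ∀ d : ℕ, ¬ p ∣ d → num p d H ≤ num p d G) (ht : total p G = total p H) :
    DegreeBijection p G H := by
  obtain ⟨f, hf, hd⟩ := exists_inj h
  let e := Equiv.ofBijective f (hf.bijective_of_nat_card_le ht.le)
  refine ⟨e.symm, e.symm.bijective, fun χ m n hm hn => ?_⟩
  have h1 : f (e.symm χ) = χ := e.apply_symm_apply χ
  have := hd (e.symm χ) n m hn (by rw [h1]; exact hm)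
  rw [cong_sq] at this ⊢
  exact this.symm

theorem bij_of_eq (h : ∀ d : ℕ, ¬ p ∣ d → num p d G = num p d H) : DegreeBijection p G H := by
  obtain ⟨f, hf, -⟩ := exists_inj (fun d hd => (h d hd).le)
  obtain ⟨g, hg, -⟩ := exists_inj (fun d hd => (h d hd).ge)
  exact bij_of_le (fun d hd => (h d hd).le)
    (le_antisymm (Nat.card_le_card_of_injective f hf) (Nat.card_le_card_of_injective g hg))

omit [Finite G] [Finite H] in
theorem num_of_bij (h : DegreeBijection p G H) :
    (∀ d : ℕ, ¬ p ∣ d → num p d G = num p d H) ∧ total p G = total p H := by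
  obtain ⟨f, hf, hd⟩ := h
  let e := Equiv.ofBijective f hf
  refine ⟨fun d hd0 => ?_, Nat.card_congr e⟩
  rw [num_eq hd0, num_eq hd0]
  refine Nat.card_congr (Equiv.subtypeEquiv e fun χ => ?_)
  have := hd χ (deg χ) (deg (f χ)) (deg_spec _).1 (deg_spec _).1
  rw [cong_sq] at this
  change _ ↔ (deg (f χ) : ZMod p) ^ 2 = _
  rw [this]

end bij

theorem total_pos (p : ℕ) [Fact p.Prime] (G : Type) [Group G] [Finite G] : 0 < total p G := by
  unfold total
  rw [Nat.card_pos_iff]
  refine ⟨⟨⟨fun _ => 1, triv_irr G, 1, by simp, ?_⟩⟩, inferInstance⟩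
  exact (Fact.out : p.Prime).one_lt.not_ge ∘ Nat.le_of_dvd one_pos

/-- the test groups -/
theorem exists_product {p : ℕ} [hp : Fact p.Prime] {X : ∀ (G : Type) [Group G], Prop}
    (hX : ClosedUnderTests p X) {G : Type} [Group G] [Finite G] (P : Sylow p G) (hG : X G) {c d : ℕ}
    (hc : ¬ p ∣ c) (hd : ¬ p ∣ d) (M : ℕ) :
    ∃ (K : Type) (_ : Group K) (_ : Finite K) (S : Sylow p K) (a b : ℕ), X K ∧ 0 < a ∧
      M * a ≤ b ∧ num p c K = a * num p c G + b * num p d G ∧
      num p c (Subgroup.normalizer ((S : Subgroup K) : Set K)) =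
        a * num p c (Subgroup.normalizer ((P : Subgroup G) : Set G)) +
        b * num p d (Subgroup.normalizer ((P : Subgroup G) : Set G)) ∧
      total p K = (a + b) * total p G := by
  rw [← ne_zero] at hc hd
  obtain ⟨q, -, hq, hqm⟩ := Nat.forall_exists_prime_gt_and_eq_mod
    (a := (c : ZMod p) * (d : ZMod p)⁻¹) (isUnit_iff_ne_zero.2 (mul_ne_zero hc (inv_ne_zero hd))) 0
  have hq0 : (q : ZMod p) ≠ 0 := by
    rw [hqm]
    exact mul_ne_zero hc (inv_ne_zero hd)
  have hqp : q ≠ p := by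
    rintro rfl
    exact hq0 (ZMod.natCast_self q)
  have hdq : (d : ZMod p) * q = c := by
    rw [hqm]
    field_simp
  obtain ⟨Q, H, _, _, hQ, hQp, hQq, hcard, hdeg, hM⟩ := exists_test p hq M
  have hpH : ¬ p ∣ Nat.card H := by
    rw [hcard, (Fact.out : p.Prime).dvd_mul]
    rintro (h | h)
    · exact hqp ((Nat.prime_dvd_prime_iff_eq hp.out hq).1 h).symm
    · exact hQp ((Nat.prime_dvd_prime_iff_eq hp.out hQ).1 h).symm
  obtain ⟨S, ⟨e⟩⟩ := sylow_prod P hpH
  have hnum : ∀ (L : Type) [Group L] [Finite L], num p c (L × H) =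
      nd 1 H * num p c L + nd q H * num p d L := by
    intro L _ _
    have h1 : num p c (L × H) = cd (fun n => Cong p n c) (L × H) := rfl
    rw [h1, cd_prod _ hq.one_lt.ne' hdeg]
    simp only [cong_shift hq0 hdq]
    rw [mul_comm, mul_comm (nd q H)]
    rfl
  refine ⟨G × H, inferInstance, inferInstance, S, nd 1 H, nd q H,
    hX G H q Q hG hq hQ hqp hQp hQq.symm hcard, nd_one_pos H, hM, hnum G, ?_, ?_⟩
  · have h2 : ∀ (L L' : Type) [Group L] [Group L'] (_ : L ≃* L'), num p c L = num p c L' :=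
      fun L L' _ _ e => cd_iso e _
    rw [h2 _ _ e, hnum]
  · have h1 : total p (G × H) = cd (fun n => ¬ p ∣ n) (G × H) := rfl
    rw [h1, cd_prod _ hq.one_lt.ne' hdeg]
    have h2 : ∀ n : ℕ, (¬ p ∣ n * q) ↔ ¬ p ∣ n := by
      intro n
      rw [← ne_zero, ← ne_zero]
      push_cast
      constructor
      · intro h h0
        exact h (by rw [h0, zero_mul])
      · exact fun h => mul_ne_zero h hq0
    simp only [h2]
    have h3 : total p G = cd (fun n => ¬ p ∣ n) G := rfl
    rw [h3]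
    ring

/-- `n_c(G) - n_c(N_G(P))` -/
noncomputable def df (p c : ℕ) (G N : Type) [Group G] [Group N] : ℤ := num p c G - num p c N

/-- the estimate: if the difference for the class `c` is at most `ε |Irr_{p'}|` for large groups in `X`,
then the differences for all classes are not positive -/
theorem df_le {p : ℕ} [Fact p.Prime] {X : ∀ (G : Type) [Group G], Prop}
    (hX : ClosedUnderTests p X) {c : ℕ} (hc : ¬ p ∣ c) (s : ℤ)
    (h : ∀ ε : ℝ, 0 < ε → ∃ k₀ : ℕ, All p X (fun G N _ _ =>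
      k₀ ≤ total p G → ((s * df p c G N : ℤ) : ℝ) ≤ ε * total p G)) :
    All p X (fun G N _ _ => ∀ d : ℕ, ¬ p ∣ d → s * df p d G N ≤ 0) := by
  intro G _ _ P hG d hd
  by_contra hcon
  push Not at hcon
  have hk := total_pos p G
  set k := total p G with hkdef
  set F := s * df p c G (Subgroup.normalizer ((P : Subgroup G) : Set G)) with hF
  set f := s * df p d G (Subgroup.normalizer ((P : Subgroup G) : Set G)) with hf
  obtain ⟨k₀, hk₀⟩ := h (1 / (4 * k)) (by positivity)
  obtain ⟨K, _, _, S, a, b, hK, ha, hb, h1, h2, h3⟩ :=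
    exists_product hX P hG hc hd (k₀ + 2 * F.natAbs + 1)
  have h4 := hk₀ K S hK (by
    rw [h3]
    calc k₀ ≤ k₀ * a := Nat.le_mul_of_pos_right _ ha
      _ ≤ (k₀ + 2 * F.natAbs + 1) * a := Nat.mul_le_mul_right _ (by omega)
      _ ≤ b := hb
      _ ≤ a + b := Nat.le_add_left _ _
      _ ≤ (a + b) * k := Nat.le_mul_of_pos_right _ hk)
  have h5 : s * df p c K (Subgroup.normalizer ((S : Subgroup K) : Set K)) = a * F + b * f := by
    rw [hF, hf]
    unfold df
    rw [h1, h2]
    push_cast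
    ring
  rw [h5, h3] at h4
  have h6 : (1 / (4 * (k : ℝ))) * (((a + b) * k : ℕ) : ℝ) = ((a : ℝ) + b) / 4 := by
    have : (k : ℝ) ≠ 0 := by exact_mod_cast hk.ne'
    push_cast
    field_simp
  rw [h6] at h4
  push_cast at h4
  have h7 : (1 : ℝ) ≤ (f : ℝ) := by exact_mod_cast hcon
  have h8 : -(F.natAbs : ℝ) ≤ (F : ℝ) := by
    have : -(F.natAbs : ℤ) ≤ F := by omega
    exact_mod_cast this
  have h9 : ((k₀ : ℝ) + 2 * F.natAbs + 1) * a ≤ b := by exact_mod_cast hb
  have ha' : (1 : ℝ) ≤ a := by exact_mod_cast ha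
  have h10 : (0 : ℝ) ≤ (F.natAbs : ℝ) := Nat.cast_nonneg _
  have h11 : (0 : ℝ) ≤ (k₀ : ℝ) := Nat.cast_nonneg _
  have hb' : (0 : ℝ) ≤ (b : ℝ) := Nat.cast_nonneg _
  have e1 : (b : ℝ) ≤ b * f := le_mul_of_one_le_right hb' h7
  have e2 : -((a : ℝ) * F.natAbs) ≤ a * F := by
    have := mul_le_mul_of_nonneg_left h8 (zero_le_one.trans ha')
    linarith
  have e3 : (a : ℝ) * F.natAbs * 2 + a ≤ b := by
    have : 0 ≤ (k₀ : ℝ) * a := by positivity
    nlinarith
  have e4 : 0 ≤ (a : ℝ) * F.natAbs := by positivity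
  linarith

/-- Let `p` be a prime, `c` a natural number not divisible by `p`, and `X` a class of finite groups
closed under direct products with the groups of order `q Q`, `q ≠ Q` primes different from `p` (for
instance the class of all finite groups, or of all solvable ones).  `G` runs through the groups in `X`,
`P` through the Sylow `p`-subgroups of `G`, `N = N_G(P)`, and `n(G)` is the number of the irreducible
characters of `G` of degree `± c` modulo `p`.  Equivalent are:
* for all `G`, `P` there is a bijection `Irr_{p'}(G) → Irr_{p'}(N)` with degrees congruent up to sign;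
* `n(G) = n(N)` for all `G`, `P`;
* for each `ε > 0`, `|n(G) - n(N)| ≤ ε |Irr_{p'}(G)|` if `|Irr_{p'}(G)|` is large enough;
* `|Irr_{p'}(G)| = |Irr_{p'}(N)|` for all `G`, `P`, and for each `ε > 0`,
  `n(G) ≤ n(N) + ε |Irr_{p'}(G)|` if `|Irr_{p'}(G)|` is large enough;
* the same with `n(N) ≤ n(G) + ε |Irr_{p'}(G)|`. -/
theorem result (p : ℕ) [Fact p.Prime] (c : ℕ) (hc : ¬ p ∣ c)
    (X : ∀ (G : Type) [Group G], Prop) (hX : ClosedUnderTests p X) :
    List.TFAE [
      All p X (fun G N _ _ => DegreeBijection p G N),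
      All p X (fun G N _ _ => num p c G = num p c N),
      ∀ ε : ℝ, 0 < ε → ∃ k₀ : ℕ, All p X (fun G N _ _ => k₀ ≤ total p G →
        |(num p c G : ℝ) - num p c N| ≤ ε * total p G),
      All p X (fun G N _ _ => total p G = total p N) ∧
        ∀ ε : ℝ, 0 < ε → ∃ k₀ : ℕ, All p X (fun G N _ _ => k₀ ≤ total p G →
          (num p c G : ℝ) ≤ num p c N + ε * total p G),
      All p X (fun G N _ _ => total p G = total p N) ∧
        ∀ ε : ℝ, 0 < ε → ∃ k₀ : ℕ, All p X (fun G N _ _ => k₀ ≤ total p G →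
          (num p c N : ℝ) ≤ num p c G + ε * total p G)] := by
  tfae_have 1 → 2 := fun h G _ _ P hG => (num_of_bij (h G P hG)).1 c hc
  tfae_have 2 → 3 := by
    intro h ε hε
    refine ⟨0, fun G _ _ P hG _ => ?_⟩
    rw [h G P hG, sub_self, abs_zero]
    positivity
  tfae_have 3 → 1 := by
    intro h
    have h1 := df_le hX hc 1 (fun ε hε => by
      obtain ⟨k₀, hk⟩ := h ε hε
      refine ⟨k₀, fun G _ _ P hG h0 => ?_⟩
      have := (abs_le.1 (hk G P hG h0)).2
      unfold df
      push_cast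
      linarith)
    have h2 := df_le hX hc (-1) (fun ε hε => by
      obtain ⟨k₀, hk⟩ := h ε hε
      refine ⟨k₀, fun G _ _ P hG h0 => ?_⟩
      have := (abs_le.1 (hk G P hG h0)).1
      unfold df
      push_cast
      linarith)
    intro G _ _ P hG
    refine bij_of_eq fun d hd => ?_
    have e1 := h1 G P hG d hd
    have e2 := h2 G P hG d hd
    unfold df at e1 e2
    omega
  tfae_have 1 → 4 := by
    intro h
    refine ⟨fun G _ _ P hG => (num_of_bij (h G P hG)).2, fun ε hε => ⟨0, fun G _ _ P hG _ => ?_⟩⟩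
    rw [(num_of_bij (h G P hG)).1 c hc]
    have : 0 ≤ ε * total p G := by positivity
    linarith
  tfae_have 1 → 5 := by
    intro h
    refine ⟨fun G _ _ P hG => (num_of_bij (h G P hG)).2, fun ε hε => ⟨0, fun G _ _ P hG _ => ?_⟩⟩
    rw [(num_of_bij (h G P hG)).1 c hc]
    have : 0 ≤ ε * total p G := by positivity
    linarith
  tfae_have 4 → 1 := by
    rintro ⟨ht, h⟩ G _ _ P hG
    have h1 := df_le hX hc 1 (fun ε hε => by
      obtain ⟨k₀, hk⟩ := h ε hε
      refine ⟨k₀, fun G _ _ P hG h0 => ?_⟩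
      have := hk G P hG h0
      unfold df
      push_cast
      linarith)
    refine bij_of_le (fun d hd => ?_) (ht G P hG)
    have e1 := h1 G P hG d hd
    unfold df at e1
    omega
  tfae_have 5 → 1 := by
    rintro ⟨ht, h⟩ G _ _ P hG
    have h1 := df_le hX hc (-1) (fun ε hε => by
      obtain ⟨k₀, hk⟩ := h ε hε
      refine ⟨k₀, fun G _ _ P hG h0 => ?_⟩
      have := hk G P hG h0
      unfold df
      push_cast
      linarith)
    refine bij_of_ge (fun d hd => ?_) (ht G P hG)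
    have e1 := h1 G P hG d hd
    unfold df at e1
    omega
  tfae_finish

end Pool.Agent.Results.MP_5ecade_al.OneResidueClass
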