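import Pool.Agent.Q90.WR.Lab

/-!
# McKay bijections with degrees congruent up to sign: the problem modulo 2

`Wr G` is the wreath product of `G` with a group of order two, `WrN j G` the `j`-fold iterated one.
If `P` is a Sylow `p`-subgroup of `G`, `p` odd, then `P × P` is one of `Wr G`, with normalizer
`Wr (N_G(P))`. Let `c k` be the number of irreducible characters of `G` whose degree is in the class
`k` (classes of `(ZMod p)ˣ` modulo its Sylow 2-subgroup, a group of odd order). For `Wr G` the
number is `(∑_{ij = k/2} c i * c j - c (√(k/2)) + 4 * c (√k)) / 2`. So differences divisible by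
`2^(a+1)` for `G` and for `Wr G` are divisible by `2^(a+2)` for `G`.
-/

set_option autoImplicit false

namespace Pool.Agent.Results.MP_5ecade_al.ParityDecides

open Pool.Agent.Q90.WR

/-- Let `p` be an odd prime. `Close p m n` says that `m` and `n` agree modulo `p` up to a factor of
2-power order; by (3), if `p ≡ 3 (mod 4)` this is congruence up to sign.
(1) For a finite group `G` and a Sylow `p`-subgroup `P` there is a bijection
`Irr_{p'}(G) → Irr_{p'}(N_G(P))` with `χ(1)` close to `χ*(1)` for all `χ` if and only if for all `j`
with `2^j ≤ |G|` and all `d` prime to `p` the numbers of irreducible characters of degree close to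
`d` of the `j`-fold iterated wreath product of `G` with `C₂` and of the normalizer of a Sylow
`p`-subgroup of it have the same parity.
(2) Such bijections exist for all `G` and `P` if and only if for all `G`, `P` and all `d` prime to
`p` the numbers of irreducible characters of degree close to `d` of `G` and of `N_G(P)` have the
same parity. -/
theorem result (p : ℕ) [Fact p.Prime] (hp2 : p ≠ 2) :
    (∀ (G : Type) [Group G] [Finite G] (P : Sylow p G),
      CloseBijection p G (Subgroup.normalizer ((P : Subgroup G) : Set G)) ↔
        ∀ j d : ℕ, 2 ^ j ≤ Nat.card G → ¬ p ∣ d → ∀ Q : Sylow p (WrN j G),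
          numClose p d (WrN j G) ≡
            numClose p d (Subgroup.normalizer ((Q : Subgroup (WrN j G)) : Set (WrN j G)))
            [MOD 2]) ∧
    ((∀ (G : Type) [Group G] [Finite G] (P : Sylow p G),
      CloseBijection p G (Subgroup.normalizer ((P : Subgroup G) : Set G))) ↔
    (∀ (G : Type) [Group G] [Finite G] (P : Sylow p G) (d : ℕ), ¬ p ∣ d →
      numClose p d G ≡
        numClose p d (Subgroup.normalizer ((P : Subgroup G) : Set G)) [MOD 2])) ∧
    (p % 4 = 3 → ∀ m n : ℕ, ¬ p ∣ n →
      (Close p m n ↔ (m : ℤ) ≡ n [ZMOD p] ∨ (m : ℤ) ≡ -n [ZMOD p])) :=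
  ⟨fun G _ _ P => close_one hp2 G P, close_all hp2, fun h3 _ _ hn => close_three h3 hn⟩

end Pool.Agent.Results.MP_5ecade_al.ParityDecides
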